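import Pool.Agent.Helper44.GH.Stmts

/-!
# Chebyshev's inequality for the moments
-/

open MeasureTheory

namespace Pool.Agent.Helper44.GH

namespace Ctr

theorem dbl (F G H K : ℝ → ℝ) (hF : IntegrableOn F (Set.Ioi 0)) (hG : IntegrableOn G (Set.Ioi 0))
    (hH : IntegrableOn H (Set.Ioi 0)) (hK : IntegrableOn K (Set.Ioi 0))
    (h : ∀ s t, 0 < s → 0 < t → F s * G t + F t * G s ≤ H s * K t + H t * K s) :
    (∫ t in Set.Ioi (0 : ℝ), F t) * (∫ t in Set.Ioi (0 : ℝ), G t) ≤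
      (∫ t in Set.Ioi (0 : ℝ), H t) * (∫ t in Set.Ioi (0 : ℝ), K t) := by
  set μ : Measure ℝ := volume.restrict (Set.Ioi 0) with hμ
  have e1 : ∫ z : ℝ × ℝ, F z.1 * G z.2 ∂(μ.prod μ) = (∫ t, F t ∂μ) * ∫ t, G t ∂μ :=
    integral_prod_mul F G
  have e2 : ∫ z : ℝ × ℝ, G z.1 * F z.2 ∂(μ.prod μ) = (∫ t, G t ∂μ) * ∫ t, F t ∂μ :=
    integral_prod_mul G F
  have e3 : ∫ z : ℝ × ℝ, H z.1 * K z.2 ∂(μ.prod μ) = (∫ t, H t ∂μ) * ∫ t, K t ∂μ :=
    integral_prod_mul H K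
  have e4 : ∫ z : ℝ × ℝ, K z.1 * H z.2 ∂(μ.prod μ) = (∫ t, K t ∂μ) * ∫ t, H t ∂μ :=
    integral_prod_mul K H
  have i1 : Integrable (fun z : ℝ × ℝ => F z.1 * G z.2) (μ.prod μ) := Integrable.mul_prod hF hG
  have i2 : Integrable (fun z : ℝ × ℝ => G z.1 * F z.2) (μ.prod μ) := Integrable.mul_prod hG hF
  have i3 : Integrable (fun z : ℝ × ℝ => H z.1 * K z.2) (μ.prod μ) := Integrable.mul_prod hH hK
  have i4 : Integrable (fun z : ℝ × ℝ => K z.1 * H z.2) (μ.prod μ) := Integrable.mul_prod hK hH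
  have h1 : ∫ z : ℝ × ℝ, (F z.1 * G z.2 + G z.1 * F z.2) ∂(μ.prod μ) ≤
      ∫ z : ℝ × ℝ, (H z.1 * K z.2 + K z.1 * H z.2) ∂(μ.prod μ) := by
    refine integral_mono_ae (i1.add i2) (i3.add i4) ?_
    have hp : μ.prod μ = (volume : Measure (ℝ × ℝ)).restrict (Set.Ioi 0 ×ˢ Set.Ioi 0) := by
      rw [hμ, Measure.prod_restrict]
      rfl
    rw [hp]
    refine (ae_restrict_iff' (measurableSet_Ioi.prod measurableSet_Ioi)).2
      (Filter.Eventually.of_forall fun z hz => ?_)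
    have h2 := h z.1 z.2 hz.1 hz.2
    change F z.1 * G z.2 + G z.1 * F z.2 ≤ H z.1 * K z.2 + K z.1 * H z.2
    linarith
  rw [integral_add i1 i2, integral_add i3 i4, e1, e2, e3, e4] at h1
  linarith

theorem cheb (f g w F G H K : ℝ → ℝ) (hF : IntegrableOn F (Set.Ioi 0))
    (hG : IntegrableOn G (Set.Ioi 0))
    (hH : IntegrableOn H (Set.Ioi 0)) (hK : IntegrableOn K (Set.Ioi 0))
    (hw : ∀ t, 0 < t → 0 ≤ w t) (hf : ∀ t u, 0 < t → t ≤ u → f t ≤ f u)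
    (hg : ∀ t u, 0 < t → t ≤ u → g u ≤ g t) (eF : ∀ t, 0 < t → F t = f t * g t * w t)
    (eG : ∀ t, 0 < t → G t = w t) (eH : ∀ t, 0 < t → H t = f t * w t)
    (eK : ∀ t, 0 < t → K t = g t * w t) :
    (∫ t in Set.Ioi (0 : ℝ), F t) * (∫ t in Set.Ioi (0 : ℝ), G t) ≤
      (∫ t in Set.Ioi (0 : ℝ), H t) * (∫ t in Set.Ioi (0 : ℝ), K t) := by
  refine dbl F G H K hF hG hH hK fun s t hs ht => ?_
  rw [eF s hs, eF t ht, eG s hs, eG t ht, eH s hs, eH t ht, eK s hs, eK t ht]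
  have h1 : (f s - f t) * (g s - g t) ≤ 0 := by
    rcases le_total s t with h | h
    · exact mul_nonpos_of_nonpos_of_nonneg (sub_nonpos.2 (hf s t hs h)) (sub_nonneg.2 (hg s t hs h))
    · exact mul_nonpos_of_nonneg_of_nonpos (sub_nonneg.2 (hf t s ht h)) (sub_nonpos.2 (hg t s ht h))
  have h2 : 0 ≤ w s * w t := mul_nonneg (hw s hs) (hw t ht)
  nlinarith [mul_nonneg h2 (neg_nonneg.2 h1)]

theorem int (p h : ℝ → ℝ) (q B : ℝ) (hp : ∀ t, 0 < t → 0 ≤ p t)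
    (hpc : ContinuousOn p (Set.Ioi 0)) (hi : IntegrableOn (fun t => t ^ q * p t) (Set.Ioi 0))
    (hc : ContinuousOn h (Set.Ioi 0)) (hb : ∀ t, 0 < t → |h t| ≤ B * t ^ q) :
    IntegrableOn (fun t => h t * p t) (Set.Ioi 0) := by
  refine Integrable.mono' (hi.const_mul B) ((hc.mul hpc).aestronglyMeasurable measurableSet_Ioi) ?_
  refine (ae_restrict_iff' measurableSet_Ioi).2 (Filter.Eventually.of_forall fun t ht => ?_)
  have ht' : 0 < t := ht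
  rw [Real.norm_eq_abs, abs_mul, abs_of_nonneg (hp t ht')]
  calc |h t| * p t ≤ (B * t ^ q) * p t := mul_le_mul_of_nonneg_right (hb t ht') (hp t ht')
    _ = B * (t ^ q * p t) := by ring

theorem xx {x y : ℝ} (hx : 1 ≤ x) (hxy : x ≤ y) : x + x⁻¹ ≤ y + y⁻¹ := by
  have hx0 : 0 < x := by linarith
  have hy0 : 0 < y := by linarith
  have h : y + y⁻¹ - (x + x⁻¹) = (y - x) * (x * y - 1) / (x * y) := by
    field_simp
    ring
  have h1 : 0 ≤ (y - x) * (x * y - 1) / (x * y) :=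
    div_nonneg (mul_nonneg (by linarith) (by nlinarith)) (by positivity)
  linarith

end Ctr

theorem st_CTR : ST_CTR := by
  intro p R a b hp hpc hRc ha hR hRa hTR hi
  have R0 : ∀ t, 0 < t → 0 < R t := fun t ht => lt_of_lt_of_le ha (hR t ht).1
  have T0 : ∀ t : ℝ, 0 < t → 0 < t ^ (1 / 3 : ℝ) := fun t ht => Real.rpow_pos_of_pos ht _
  have T1 : ∀ t : ℝ, 0 < t → t ^ (-(1 / 3) : ℝ) = (t ^ (1 / 3 : ℝ))⁻¹ := fun t ht =>
    Real.rpow_neg ht.le _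
  have T2 : ∀ t : ℝ, 0 < t → t ^ (2 / 3 : ℝ) = (t ^ (1 / 3 : ℝ)) ^ 2 := by
    intro t ht
    rw [← Real.rpow_natCast, ← Real.rpow_mul ht.le]
    norm_num
  have T3 : ∀ t : ℝ, 0 < t → t ^ (-(2 / 3) : ℝ) = ((t ^ (1 / 3 : ℝ)) ^ 2)⁻¹ := by
    intro t ht
    rw [Real.rpow_neg ht.le, T2 t ht]
  have Tm : ∀ t u : ℝ, 0 < t → t ≤ u → t ^ (1 / 3 : ℝ) ≤ u ^ (1 / 3 : ℝ) := fun t u ht htu =>
    Real.rpow_le_rpow ht.le htu (by norm_num)
  have hb0 : 0 < b := lt_of_lt_of_le (R0 1 one_pos) (hR 1 one_pos).2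
  have cT : ∀ q : ℝ, ContinuousOn (fun t : ℝ => t ^ q) (Set.Ioi 0) := fun q =>
    continuousOn_id.rpow_const fun x hx => Or.inl (ne_of_gt hx)
  have cRi : ContinuousOn (fun t => (R t)⁻¹) (Set.Ioi 0) := hRc.inv₀ fun t ht => (R0 t ht).ne'
  have Ri : ∀ t, 0 < t → (R t)⁻¹ ≤ a⁻¹ := fun t ht => inv_anti₀ ha (hR t ht).1
  have Ri0 : ∀ t, 0 < t → 0 < (R t)⁻¹ := fun t ht => inv_pos.2 (R0 t ht)
  -- integrability
  have iR : IntegrableOn (fun t => R t * p t) (Set.Ioi 0) :=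
    Ctr.int p R 0 b hp hpc (hi 0 (by norm_num)) hRc fun t ht => by
      rw [Real.rpow_zero, mul_one, abs_of_pos (R0 t ht)]
      exact (hR t ht).2
  have iQ : IntegrableOn (fun t => (R t)⁻¹ * p t) (Set.Ioi 0) :=
    Ctr.int p (fun t => (R t)⁻¹) 0 a⁻¹ hp hpc (hi 0 (by norm_num)) cRi fun t ht => by
      rw [Real.rpow_zero, mul_one, abs_of_pos (Ri0 t ht)]
      exact Ri t ht
  have iR2 : IntegrableOn (fun t => (R t) ^ 2 * p t) (Set.Ioi 0) :=
    Ctr.int p (fun t => (R t) ^ 2) 0 (b ^ 2) hp hpc (hi 0 (by norm_num)) (hRc.pow 2)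
      fun t ht => by
      rw [Real.rpow_zero, mul_one, abs_of_nonneg (sq_nonneg _)]
      exact pow_le_pow_left₀ (R0 t ht).le (hR t ht).2 2
  have iQ2 : IntegrableOn (fun t => ((R t)⁻¹) ^ 2 * p t) (Set.Ioi 0) :=
    Ctr.int p (fun t => ((R t)⁻¹) ^ 2) 0 (a⁻¹ ^ 2) hp hpc (hi 0 (by norm_num)) (cRi.pow 2)
      fun t ht => by
      rw [Real.rpow_zero, mul_one, abs_of_nonneg (sq_nonneg _)]
      exact pow_le_pow_left₀ (Ri0 t ht).le (Ri t ht) 2
  have iT := hi (1 / 3) (by norm_num)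
  have iTi := hi (-(1 / 3)) (by norm_num)
  have iT2 := hi (2 / 3) (by norm_num)
  have iTi2 := hi (-(2 / 3)) (by norm_num)
  have iTQ : IntegrableOn (fun t => (t ^ (1 / 3 : ℝ) * (R t)⁻¹) * p t) (Set.Ioi 0) :=
    Ctr.int p (fun t => t ^ (1 / 3 : ℝ) * (R t)⁻¹) (1 / 3) a⁻¹ hp hpc iT
      ((cT (1 / 3)).mul cRi) fun t ht => by
      rw [abs_of_pos (mul_pos (T0 t ht) (Ri0 t ht)), mul_comm]
      exact mul_le_mul_of_nonneg_right (Ri t ht) (T0 t ht).le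
  have iTR : IntegrableOn (fun t => (t ^ (-(1 / 3) : ℝ) * R t) * p t) (Set.Ioi 0) :=
    Ctr.int p (fun t => t ^ (-(1 / 3) : ℝ) * R t) (-(1 / 3)) b hp hpc iTi
      ((cT (-(1 / 3))).mul hRc) fun t ht => by
      have h1 : 0 < t ^ (-(1 / 3) : ℝ) := Real.rpow_pos_of_pos ht _
      rw [abs_of_pos (mul_pos h1 (R0 t ht)), mul_comm]
      exact mul_le_mul_of_nonneg_right (hR t ht).2 h1.le
  -- monotonicity
  have mQ : ∀ t u, 0 < t → t ≤ u → (R t)⁻¹ ≤ (R u)⁻¹ := fun t u ht htu =>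
    inv_anti₀ (R0 u (lt_of_lt_of_le ht htu)) (hRa t u ht htu)
  have mA : ∀ t u : ℝ, 0 < t → t ≤ u →
      (u ^ (1 / 3 : ℝ) * R u)⁻¹ ≤ (t ^ (1 / 3 : ℝ) * R t)⁻¹ := fun t u ht htu =>
    inv_anti₀ (mul_pos (T0 t ht) (R0 t ht)) (hTR t u ht htu)
  have nT : 0 ≤ ∫ t in Set.Ioi (0 : ℝ), t ^ (1 / 3 : ℝ) * p t :=
    setIntegral_nonneg measurableSet_Ioi fun t ht => mul_nonneg (T0 t ht).le (hp t ht)
  have nQ : 0 ≤ ∫ t in Set.Ioi (0 : ℝ), (R t)⁻¹ * p t :=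
    setIntegral_nonneg measurableSet_Ioi fun t ht => mul_nonneg (Ri0 t ht).le (hp t ht)
  refine ⟨?_, ?_, ?_⟩
  · refine Ctr.dbl _ _ _ _ iR iQ iT iTi fun s t hs ht => ?_
    have key : ∀ s t, 0 < s → 0 < t → s ≤ t →
        R s * (R t)⁻¹ + R t * (R s)⁻¹ ≤ s ^ (1 / 3 : ℝ) * (t ^ (1 / 3 : ℝ))⁻¹ +
          t ^ (1 / 3 : ℝ) * (s ^ (1 / 3 : ℝ))⁻¹ := by
      intro s t hs ht hst
      have h1 : 1 ≤ R s * (R t)⁻¹ := by
        rw [← div_eq_mul_inv, one_le_div (R0 t ht)]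
        exact hRa s t hs hst
      have h2 : R s * (R t)⁻¹ ≤ t ^ (1 / 3 : ℝ) * (s ^ (1 / 3 : ℝ))⁻¹ := by
        rw [← div_eq_mul_inv, ← div_eq_mul_inv, div_le_div_iff₀ (R0 t ht) (T0 s hs)]
        have := hTR s t hs hst
        linarith
      have h3 := Ctr.xx h1 h2
      rw [mul_inv, inv_inv, mul_inv, inv_inv] at h3
      linarith
    have hps : 0 ≤ p s * p t := mul_nonneg (hp s hs) (hp t ht)
    have key2 : R s * (R t)⁻¹ + R t * (R s)⁻¹ ≤ s ^ (1 / 3 : ℝ) * (t ^ (1 / 3 : ℝ))⁻¹ +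
          t ^ (1 / 3 : ℝ) * (s ^ (1 / 3 : ℝ))⁻¹ := by
      rcases le_total s t with h | h
      · exact key s t hs ht h
      · have := key t s ht hs h
        linarith
    rw [T1 s hs, T1 t ht]
    have h4 := mul_le_mul_of_nonneg_right key2 hps
    linarith
  · have h1 := Ctr.cheb (fun t => (R t)⁻¹) (fun t => (t ^ (1 / 3 : ℝ) * R t)⁻¹)
      (fun t => t ^ (1 / 3 : ℝ) * p t) (fun t => ((R t)⁻¹) ^ 2 * p t)
      (fun t => t ^ (1 / 3 : ℝ) * p t) (fun t => (t ^ (1 / 3 : ℝ) * (R t)⁻¹) * p t)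
      (fun t => (R t)⁻¹ * p t) iQ2 iT iTQ iQ
      (fun t ht => mul_nonneg (T0 t ht).le (hp t ht)) mQ mA
      (fun t ht => by
        have := (T0 t ht).ne'
        have := (R0 t ht).ne'
        field_simp) (fun t ht => rfl)
      (fun t ht => by ring)
      (fun t ht => by
        have := (T0 t ht).ne'
        have := (R0 t ht).ne'
        field_simp)
    have h2 := Ctr.cheb (fun t => t ^ (1 / 3 : ℝ)) (fun t => (t ^ (1 / 3 : ℝ) * R t)⁻¹)
      (fun t => t ^ (1 / 3 : ℝ) * p t) (fun t => (t ^ (1 / 3 : ℝ) * (R t)⁻¹) * p t)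
      (fun t => t ^ (1 / 3 : ℝ) * p t) (fun t => t ^ (2 / 3 : ℝ) * p t)
      (fun t => (R t)⁻¹ * p t) iTQ iT iT2 iQ
      (fun t ht => mul_nonneg (T0 t ht).le (hp t ht)) Tm mA
      (fun t ht => by
        have := (T0 t ht).ne'
        have := (R0 t ht).ne'
        field_simp) (fun t ht => rfl)
      (fun t ht => by rw [T2 t ht]; ring)
      (fun t ht => by
        have := (T0 t ht).ne'
        have := (R0 t ht).ne'
        field_simp)
    have h3 := mul_le_mul_of_nonneg_right h1 nT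
    have h4 := mul_le_mul_of_nonneg_right h2 nQ
    nlinarith
  · have h1 := Ctr.cheb (fun t => t ^ (1 / 3 : ℝ) * ((R t)⁻¹) ^ 2)
      (fun t => (t ^ (1 / 3 : ℝ) * R t)⁻¹)
      (fun t => (R t) ^ 2 * p t) (fun t => (R t)⁻¹ * p t)
      (fun t => (R t) ^ 2 * p t) (fun t => t ^ (1 / 3 : ℝ) * p t)
      (fun t => (t ^ (-(1 / 3) : ℝ) * R t) * p t) iQ iR2 iT iTR
      (fun t ht => mul_nonneg (sq_nonneg _) (hp t ht))
      (fun t u ht htu => mul_le_mul (Tm t u ht htu)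
        (pow_le_pow_left₀ (Ri0 t ht).le (mQ t u ht htu) 2) (sq_nonneg _)
        (T0 u (lt_of_lt_of_le ht htu)).le) mA
      (fun t ht => by
        have := (T0 t ht).ne'
        have := (R0 t ht).ne'
        field_simp) (fun t ht => rfl)
      (fun t ht => by
        have := (R0 t ht).ne'
        field_simp)
      (fun t ht => by
        rw [T1 t ht]
        have := (T0 t ht).ne'
        have := (R0 t ht).ne'
        field_simp)
    have h2 := Ctr.cheb (fun t => (t ^ (1 / 3 : ℝ)) ^ 2 * (R t)⁻¹)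
      (fun t => (t ^ (1 / 3 : ℝ) * R t)⁻¹)
      (fun t => (t ^ (-(1 / 3) : ℝ) * R t) * p t) (fun t => (R t)⁻¹ * p t)
      (fun t => (t ^ (-(1 / 3) : ℝ) * R t) * p t) (fun t => t ^ (1 / 3 : ℝ) * p t)
      (fun t => t ^ (-(2 / 3) : ℝ) * p t) iQ iTR iT iTi2
      (fun t ht => mul_nonneg (mul_nonneg (Real.rpow_pos_of_pos ht _).le (R0 t ht).le) (hp t ht))
      (fun t u ht htu => mul_le_mul (pow_le_pow_left₀ (T0 t ht).le (Tm t u ht htu) 2)
        (mQ t u ht htu) (Ri0 t ht).le (sq_nonneg _)) mA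
      (fun t ht => by
        rw [T1 t ht]
        have := (T0 t ht).ne'
        have := (R0 t ht).ne'
        field_simp) (fun t ht => rfl)
      (fun t ht => by
        rw [T1 t ht]
        have := (T0 t ht).ne'
        have := (R0 t ht).ne'
        field_simp)
      (fun t ht => by
        rw [T1 t ht, T3 t ht]
        have := (T0 t ht).ne'
        have := (R0 t ht).ne'
        field_simp)
    have h3 := mul_le_mul_of_nonneg_right h1 nQ
    have h4 := mul_le_mul_of_nonneg_right h2 nT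
    nlinarith

end Pool.Agent.Helper44.GH
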